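import Pool.Agent.H95.GY.Targets

/-!
# MP_c39b0e_gt, module DD: derivatives along one-parameter groups
-/

set_option autoImplicit false

open Filter Topology MeasureTheory Set
open scoped Pointwise

universe u v

namespace Pool.Agent.H95.GY

namespace DDaux

variable {a : ℝ → ℝ} {K L T : ℝ}

theorem step1 (hK : 0 ≤ K) (hadd : ∀ s t, |s| ≤ T → |a (s + t) - a s - a t| ≤ K * |s| * |t|)
    (hlip : ∀ t, |a t| ≤ L * |t|) (s : ℝ) (hs : |s| ≤ T) (m : ℕ) :
    |a (m * s) - m * a s| ≤ K * s ^ 2 * m ^ 2 / 2 := by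
  induction m with
  | zero =>
    have h0 := hlip 0
    rw [abs_zero, mul_zero] at h0
    have h1 : a 0 = 0 := abs_eq_zero.1 (le_antisymm h0 (abs_nonneg _))
    simp [h1]
  | succ m ih =>
    have h1 := hadd s (m * s) hs
    have h2 : s + (m : ℝ) * s = ((m + 1 : ℕ) : ℝ) * s := by push_cast; ring
    rw [h2] at h1
    have h3 : K * |s| * |(m : ℝ) * s| = K * s ^ 2 * m := by
      rw [abs_mul, Nat.abs_cast]
      have : |s| * |s| = s ^ 2 := by rw [← sq, sq_abs]
      calc K * |s| * ((m : ℝ) * |s|) = K * (|s| * |s|) * m := by ring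
        _ = K * s ^ 2 * m := by rw [this]
    rw [h3] at h1
    have h4 : a (((m + 1 : ℕ) : ℝ) * s) - ((m + 1 : ℕ) : ℝ) * a s =
        (a (((m + 1 : ℕ) : ℝ) * s) - a s - a (m * s)) + (a (m * s) - m * a s) := by
      push_cast; ring
    have h5 := abs_add_le (a (((m + 1 : ℕ) : ℝ) * s) - a s - a (m * s)) (a (m * s) - m * a s)
    rw [h4]
    have h6 : K * s ^ 2 * ((m + 1 : ℕ) : ℝ) ^ 2 / 2 =
        K * s ^ 2 * m + K * s ^ 2 * m ^ 2 / 2 + K * s ^ 2 / 2 := by push_cast; ring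
    rw [h6]
    have h7 : 0 ≤ K * s ^ 2 / 2 := by positivity
    linarith

theorem step2 (hK : 0 ≤ K) (hL : 0 ≤ L)
    (hadd : ∀ s t, |s| ≤ T → |a (s + t) - a s - a t| ≤ K * |s| * |t|)
    (hlip : ∀ t, |a t| ≤ L * |t|) (s t : ℝ) (hs0 : 0 < s) (hs : s ≤ T) (ht : 0 < t) :
    |a t - t * (a s / s)| ≤ K * t ^ 2 / 2 + (K * t * s + 2 * L * s) := by
  set m := ⌊t / s⌋₊ with hm
  have hts : 0 ≤ t / s := by positivity
  have h1 : (m : ℝ) ≤ t / s := Nat.floor_le hts
  have h2 : t / s < (m : ℝ) + 1 := Nat.lt_floor_add_one _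
  have h1' : (m : ℝ) * s ≤ t := by rwa [le_div_iff₀ hs0] at h1
  have h2' : t < ((m : ℝ) + 1) * s := by rwa [div_lt_iff₀ hs0] at h2
  have hm0 : (0 : ℝ) ≤ (m : ℝ) := Nat.cast_nonneg m
  have hr0 : 0 ≤ t - m * s := by linarith
  have hrs : t - m * s ≤ s := by nlinarith
  have hms0 : 0 ≤ (m : ℝ) * s := by positivity
  have e1 := hadd (t - m * s) (m * s) (by rw [abs_of_nonneg hr0]; linarith)
  rw [sub_add_cancel, abs_of_nonneg hr0, abs_of_nonneg hms0] at e1
  have e1' : K * (t - m * s) * (m * s) ≤ K * t * s := by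
    have : (t - m * s) * (m * s) ≤ s * t := mul_le_mul hrs h1' hms0 hs0.le
    calc K * (t - m * s) * (m * s) = K * ((t - m * s) * (m * s)) := by ring
      _ ≤ K * (s * t) := mul_le_mul_of_nonneg_left this hK
      _ = K * t * s := by ring
  have e2 := hlip (t - m * s)
  rw [abs_of_nonneg hr0] at e2
  have e2' : L * (t - m * s) ≤ L * s := mul_le_mul_of_nonneg_left hrs hL
  have e3 := step1 hK hadd hlip s (by rw [abs_of_pos hs0]; exact hs) m
  have e3' : K * s ^ 2 * (m : ℝ) ^ 2 / 2 ≤ K * t ^ 2 / 2 := by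
    have : ((m : ℝ) * s) ^ 2 ≤ t ^ 2 := pow_le_pow_left₀ hms0 h1' 2
    have := mul_le_mul_of_nonneg_left this hK
    nlinarith
  have e4 : |(m : ℝ) * a s - t * (a s / s)| ≤ L * s := by
    have h3 : (m : ℝ) * a s - t * (a s / s) = ((m : ℝ) - t / s) * a s := by
      field_simp
    rw [h3, abs_mul]
    have h4 : |(m : ℝ) - t / s| ≤ 1 := by rw [abs_le]; constructor <;> linarith
    have h5 := hlip s
    rw [abs_of_pos hs0] at h5
    calc |(m : ℝ) - t / s| * |a s| ≤ 1 * (L * s) :=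
          mul_le_mul h4 h5 (abs_nonneg _) zero_le_one
      _ = L * s := one_mul _
  have h6 : a t - t * (a s / s) = (a t - a (t - m * s) - a (m * s)) + a (t - m * s) +
      (a (m * s) - m * a s) + ((m : ℝ) * a s - t * (a s / s)) := by ring
  rw [h6]
  have t1 := abs_add_le ((a t - a (t - m * s) - a (m * s)) + a (t - m * s) +
      (a (m * s) - m * a s)) ((m : ℝ) * a s - t * (a s / s))
  have t2 := abs_add_le ((a t - a (t - m * s) - a (m * s)) + a (t - m * s))
      (a (m * s) - m * a s)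
  have t3 := abs_add_le (a t - a (t - m * s) - a (m * s)) (a (t - m * s))
  linarith

theorem main (hK : 0 ≤ K) (hL : 0 ≤ L) (hT : 0 < T)
    (hadd : ∀ s t, |s| ≤ T → |a (s + t) - a s - a t| ≤ K * |s| * |t|)
    (hlip : ∀ t, |a t| ≤ L * |t|) :
    ∃ D : ℝ, |D| ≤ L ∧ ∀ t, |t| ≤ T → |a t - t * D| ≤ 2 * K * t ^ 2 := by
  let s : ℕ → ℝ := fun n => T / ((n : ℝ) + 1)
  have hs0 : ∀ n, 0 < s n := fun n => by positivity
  have hsT : ∀ n, s n ≤ T := fun n => by
    refine div_le_self hT.le ?_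
    have : (0 : ℝ) ≤ (n : ℝ) := Nat.cast_nonneg n
    linarith
  have hslim : Tendsto s atTop (𝓝 0) := by
    have h := tendsto_one_div_add_atTop_nhds_zero_nat (𝕜 := ℝ)
    have h2 := h.const_mul T
    rw [mul_zero] at h2
    refine h2.congr fun n => ?_
    rw [mul_one_div]
  have hd : ∀ n, a (s n) / s n ∈ Icc (-L) L := fun n => by
    have h1 := hlip (s n)
    rw [abs_of_pos (hs0 n)] at h1
    rw [mem_Icc, ← abs_le, abs_div, abs_of_pos (hs0 n), div_le_iff₀ (hs0 n)]
    exact h1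
  obtain ⟨D, hD, ψ, hψ, hlim⟩ := isCompact_Icc.tendsto_subseq hd
  have hpos : ∀ t, 0 < t → |a t - t * D| ≤ K * t ^ 2 / 2 := by
    intro t ht
    have hl : Tendsto (fun n => |a t - t * (a (s (ψ n)) / s (ψ n))|) atTop
        (𝓝 |a t - t * D|) := (tendsto_const_nhds.sub (hlim.const_mul t)).abs
    have hsψ : Tendsto (fun n => s (ψ n)) atTop (𝓝 0) := hslim.comp hψ.tendsto_atTop
    have hr : Tendsto (fun n => K * t ^ 2 / 2 + (K * t * s (ψ n) + 2 * L * s (ψ n))) atTop
        (𝓝 (K * t ^ 2 / 2 + (K * t * 0 + 2 * L * 0))) :=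
      tendsto_const_nhds.add ((hsψ.const_mul _).add (hsψ.const_mul _))
    have := le_of_tendsto_of_tendsto' hl hr
      (fun n => step2 hK hL hadd hlip _ _ (hs0 _) (hsT _) ht)
    simpa using this
  refine ⟨D, abs_le.2 hD, fun t ht => ?_⟩
  rcases lt_trichotomy t 0 with h | h | h
  · have h1 := hpos (-t) (by linarith)
    have h2 := hadd t (-t) ht
    have h00 := hlip 0
    rw [abs_zero, mul_zero] at h00
    have h01 : a 0 = 0 := abs_eq_zero.1 (le_antisymm h00 (abs_nonneg _))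
    rw [add_neg_cancel, h01, abs_neg] at h2
    have h3 : K * |t| * |t| = K * t ^ 2 := by
      rw [mul_assoc, ← sq, sq_abs]
    rw [h3] at h2
    rw [neg_sq] at h1
    have h4 : a t - t * D = -(0 - a t - a (-t)) - (a (-t) - -t * D) := by ring
    rw [h4]
    have h5 := abs_sub (-(0 - a t - a (-t))) (a (-t) - -t * D)
    rw [abs_neg] at h5
    have h6 : 0 ≤ K * t ^ 2 := by positivity
    linarith
  · subst h
    have h00 := hlip 0
    rw [abs_zero, mul_zero] at h00
    have h01 : a 0 = 0 := abs_eq_zero.1 (le_antisymm h00 (abs_nonneg _))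
    simp [h01]
  · have h1 := hpos t h
    have h6 : 0 ≤ K * t ^ 2 := by positivity
    linarith

end DDaux

theorem pf_DD : T_DD.{u} := by
  intro Q _ _ _ _ ν φ r C hG
  have hr := hG.r_pos
  have hC := hG.C_pos
  refine ⟨2 * C, by linarith, fun X ρ hX hρ hν => ?_⟩
  have hlip : ∀ (x : Q) (t : ℝ), |φ (X t * x) - φ x| ≤ (C * ρ) * |t| := by
    intro x t
    have h1 := hG.lip (X t) x
    have h2 := mul_le_mul_of_nonneg_left (hν t) (by linarith : (0 : ℝ) ≤ C)
    calc |φ (X t * x) - φ x| ≤ C * ν (X t) := h1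
      _ ≤ C * (ρ * |t|) := h2
      _ = (C * ρ) * |t| := by ring
  rcases hρ.eq_or_lt with h0 | hpos
  · refine ⟨fun _ => 0, fun x => ?_, fun t x _ => ?_⟩
    · rw [abs_zero]; positivity
    · have h1 := hlip x t
      rw [← h0] at h1 ⊢
      simpa using h1
  have hT : 0 < r / ρ := by positivity
  have hex : ∀ x : Q, ∃ D : ℝ, |D| ≤ C * ρ ∧ ∀ t, |t| ≤ r / ρ →
      |(φ (X t * x) - φ x) - t * D| ≤ 2 * (C * ρ ^ 2) * t ^ 2 := by
    intro x
    refine DDaux.main (a := fun t => φ (X t * x) - φ x) (K := C * ρ ^ 2) (L := C * ρ)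
      (T := r / ρ) (by positivity) (by positivity) hT ?_ (hlip x)
    intro s t hs
    have hs' : ρ * |s| ≤ r := by
      rw [le_div_iff₀ hpos] at hs
      linarith
    have h1 := hG.sec (X s) (X t) x ((hν s).trans hs')
    rw [← hX.add] at h1
    have h2 : φ (X (s + t) * x) - φ x - (φ (X s * x) - φ x) - (φ (X t * x) - φ x) =
        φ (X (s + t) * x) - φ (X s * x) - φ (X t * x) + φ x := by ring
    rw [h2]
    refine h1.trans ?_
    have h3 : ν (X s) * ν (X t) ≤ (ρ * |s|) * (ρ * |t|) :=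
      mul_le_mul (hν s) (hν t) (hG.nonneg _) (by positivity)
    calc C * ν (X s) * ν (X t) = C * (ν (X s) * ν (X t)) := by ring
      _ ≤ C * ((ρ * |s|) * (ρ * |t|)) := mul_le_mul_of_nonneg_left h3 (by linarith)
      _ = C * ρ ^ 2 * |s| * |t| := by ring
  choose D hD1 hD2 using hex
  refine ⟨D, fun x => ?_, fun t x ht => ?_⟩
  · have := hD1 x
    have h2 : 0 ≤ C * ρ := by positivity
    linarith
  · have h1 := hD2 x t (by rw [le_div_iff₀ hpos]; linarith)
    calc |φ (X t * x) - φ x - t * D x| ≤ 2 * (C * ρ ^ 2) * t ^ 2 := h1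
      _ = 2 * C * ρ ^ 2 * t ^ 2 := by ring

end Pool.Agent.H95.GY
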