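import Pool.Agent.H95.GY.Targets

/-!
# MP_c39b0e_gt, module RHO: one-parameter groups are Lipschitz
-/

set_option autoImplicit false

open Filter Topology MeasureTheory Set
open scoped Pointwise

universe u v

namespace Pool.Agent.H95.GY

theorem pf_RHO : T_RHO.{u} := by
  intro Q _ _ _ _ ν r C hP X hX
  have hr := hP.r_pos
  have hC := hP.C_pos
  have hCpos : (0 : ℝ) < C := by linarith
  have hX0 := hX.zero
  have hε : 0 < r / (4 * C) := by positivity
  have hmem : {g | ν g < r / (4 * C)} ∈ 𝓝 (X 0) := by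
    rw [hX0]; exact hP.nhd _ hε
  have hpre : X ⁻¹' {g | ν g < r / (4 * C)} ∈ 𝓝 (0 : ℝ) := hX.cont.continuousAt hmem
  obtain ⟨δ, hδ, hball⟩ := Metric.mem_nhds_iff.1 hpre
  obtain ⟨t0, ht0, ht0δ⟩ : ∃ t0 : ℝ, 0 < t0 ∧ t0 < δ := ⟨δ / 2, by linarith, by linarith⟩
  have hsmall : ∀ s : ℝ, |s| ≤ t0 → ν (X s) < r / (4 * C) := by
    intro s hs
    have : s ∈ Metric.ball (0 : ℝ) δ := by
      rw [Metric.mem_ball, Real.dist_eq, sub_zero]; linarith
    exact hball this
  have hle4 : r / (4 * C) ≤ r / 4 := by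
    apply div_le_div_of_nonneg_left hr.le (by norm_num)
    nlinarith
  have key : ∀ (t : ℝ) (m : ℕ), (m : ℝ) * |t| ≤ t0 → (m : ℝ) * ν (X t) ≤ r / 2 := by
    intro t m
    induction m with
    | zero => intro _; simp; positivity
    | succ m ih =>
      intro hm
      have hcast : ((m + 1 : ℕ) : ℝ) = (m : ℝ) + 1 := by push_cast; ring
      rw [hcast] at hm
      have hm0 : (0 : ℝ) ≤ (m : ℝ) := Nat.cast_nonneg m
      have habs := abs_nonneg t
      have h1 : (m : ℝ) * |t| ≤ t0 := by nlinarith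
      have h2 : |t| ≤ t0 := by nlinarith [mul_nonneg hm0 habs]
      have h3 := ih h1
      have h4 := hsmall t h2
      have h5 : ((m + 1 : ℕ) : ℝ) * ν (X t) ≤ r := by
        rw [hcast]; nlinarith
      have h6 := hP.esc (X t) (m + 1) h5
      rw [← hX.nsmul] at h6
      have h7 : |((m + 1 : ℕ) : ℝ) * t| ≤ t0 := by
        rw [abs_mul, hcast, abs_of_nonneg (by linarith : (0 : ℝ) ≤ (m : ℝ) + 1)]
        exact hm
      have h8 := hsmall _ h7
      have h9 : C * ν (X (((m + 1 : ℕ) : ℝ) * t)) ≤ C * (r / (4 * C)) :=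
        mul_le_mul_of_nonneg_left h8.le hCpos.le
      have h10 : C * (r / (4 * C)) = r / 4 := by field_simp
      linarith
  refine ⟨(r + 1) / t0, by positivity, fun t => ?_⟩
  have hν0 := hP.nonneg (X t)
  have hν1 := hP.le_one (X t)
  rw [div_mul_eq_mul_div, le_div_iff₀ ht0]
  by_cases ht : t = 0
  · subst ht
    rw [hX0, hP.one]; simp
  · have htpos : 0 < |t| := abs_pos.2 ht
    by_cases htt : |t| ≤ t0
    · set n := ⌊t0 / |t|⌋₊ with hn
      have hq : 1 ≤ t0 / |t| := by rwa [le_div_iff₀ htpos, one_mul]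
      have hn1 : 1 ≤ n := by
        rw [hn]; exact Nat.le_floor (by simpa using hq)
      have hn1' : (1 : ℝ) ≤ (n : ℝ) := by exact_mod_cast hn1
      have hnle : (n : ℝ) ≤ t0 / |t| := Nat.floor_le (by linarith)
      have hnt : (n : ℝ) * |t| ≤ t0 := by
        rwa [le_div_iff₀ htpos] at hnle
      have hnlt : t0 / |t| < (n : ℝ) + 1 := Nat.lt_floor_add_one _
      rw [div_lt_iff₀ htpos] at hnlt
      have h1 := key t n hnt
      -- t0 < (n+1)|t| ≤ 2 n |t|
      have h2 : t0 ≤ 2 * (n : ℝ) * |t| := by nlinarith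
      have h3 : ν (X t) * t0 ≤ ν (X t) * (2 * (n : ℝ) * |t|) :=
        mul_le_mul_of_nonneg_left h2 hν0
      have h4 : ν (X t) * (2 * (n : ℝ) * |t|) = 2 * |t| * ((n : ℝ) * ν (X t)) := by ring
      have h5 : 2 * |t| * ((n : ℝ) * ν (X t)) ≤ 2 * |t| * (r / 2) :=
        mul_le_mul_of_nonneg_left h1 (by positivity)
      nlinarith
    · push Not at htt
      have h1 : ν (X t) * t0 ≤ 1 * t0 := mul_le_mul_of_nonneg_right hν1 ht0.le
      nlinarith [mul_pos hr htpos]

end Pool.Agent.H95.GY
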